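import Pool.Agent.Run7.h645.GV.Basic

/-!
# Automorphisms act on the exponents
-/

set_option autoImplicit false

namespace Pool.Agent.Run7.h645.GV

/-- A variety that consists of abelian groups is determined by its exponent. -/
theorem eq_W_of_le {U : FILat} {n : ℕ} (h : W n ≤ U) : U = W (ex U) := by
  refine eq_W fun a b => h (mem_laws.mpr fun f => ?_)
  rw [map_mul, map_mul, map_mul, map_inv, map_inv, mul_comm (f a) (f b)]
  group

theorem le_W_one (U : FILat) : U ≤ W 1 := le_W.mpr (one_dvd _)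

theorem eq_W_one {U : FILat} (h : ex U = 1) : U = W 1 := by
  refine le_antisymm (le_W_one U) fun w _ => ?_
  have h1 := pow_mem (U := U) (k := 1) (by rw [h]) w
  rwa [pow_one] at h1

theorem W_inj {m n : ℕ} (h : W m = W n) : m = n := by rw [← ex_W m, h, ex_W]

/-- the maximal elements of `FILat` below the top -/
def Mx (U : FILat) : Prop := U ≠ W 1 ∧ ∀ V : FILat, U ≤ V → V = U ∨ V = W 1

theorem mx_iff {U : FILat} : Mx U ↔ ∃ p : ℕ, p.Prime ∧ U = W p := by
  constructor
  · rintro ⟨h1, h2⟩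
    have h3 : ex U ≠ 1 := fun h => h1 (eq_W_one h)
    obtain ⟨p, hp, hpU⟩ := Nat.exists_prime_and_dvd h3
    refine ⟨p, hp, ?_⟩
    rcases h2 (W p) (le_W.mpr hpU) with h | h
    · exact h.symm
    · exact absurd (W_inj h) hp.one_lt.ne'
  · rintro ⟨p, hp, rfl⟩
    refine ⟨fun h => hp.one_lt.ne' (W_inj h), fun V hV => ?_⟩
    have h1 := eq_W_of_le hV
    rw [h1] at hV
    rcases (Nat.dvd_prime hp).mp (W_le_W.mp hV) with h | h
    · right; rw [h1, h]
    · left; rw [h1, h]

theorem le_W_zero {U : FILat} : U ≤ W 0 ↔ ∀ M : FILat, Mx M → U ≤ M := by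
  constructor
  · rintro h M hM
    obtain ⟨p, _, rfl⟩ := mx_iff.mp hM
    exact h.trans (W_le_W.mpr (dvd_zero p))
  · intro h
    rw [le_W, zero_dvd_iff]
    by_contra h0
    obtain ⟨p, hp1, hp⟩ := Nat.exists_infinite_primes (ex U + 1)
    have h1 := le_W.mp (h (W p) (mx_iff.mpr ⟨p, hp, rfl⟩))
    have h2 := Nat.le_of_dvd (Nat.pos_of_ne_zero h0) h1
    omega

theorem map_W_one (e : FILat ≃o FILat) : e (W 1) = W 1 := by
  refine le_antisymm (le_W_one _) ?_
  have h := e.monotone (le_W_one (e.symm (W 1)))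
  rwa [e.apply_symm_apply] at h

theorem mx_map (e : FILat ≃o FILat) {U : FILat} (h : Mx U) : Mx (e U) := by
  refine ⟨fun h1 => h.1 (e.injective (h1.trans (map_W_one e).symm)), fun V hV => ?_⟩
  have h2 : U ≤ e.symm V := by rwa [OrderIso.le_symm_apply]
  rcases h.2 _ h2 with h3 | h3
  · left; rw [← h3, e.apply_symm_apply]
  · right; rw [← map_W_one e, ← h3, e.apply_symm_apply]

/-- The variety of the abelian groups is fixed by every automorphism. -/
theorem map_W_zero (e : FILat ≃o FILat) : e (W 0) = W 0 := by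
  have key : ∀ e : FILat ≃o FILat, e (W 0) ≤ W 0 := by
    intro e
    rw [le_W_zero]
    intro M hM
    have h1 := le_W_zero.mp (le_refl (W 0)) _ (mx_map e.symm hM)
    rwa [OrderIso.le_symm_apply] at h1
  refine le_antisymm (key e) ?_
  have h := e.monotone (key e.symm)
  rwa [e.apply_symm_apply] at h

/-- the action on the exponents -/
noncomputable def sg (e : FILat ≃o FILat) (n : ℕ) : ℕ := ex (e (W n))

theorem map_W (e : FILat ≃o FILat) (n : ℕ) : e (W n) = W (sg e n) := by
  refine eq_W_of_le (n := 0) ?_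
  conv_lhs => rw [← map_W_zero e]
  exact e.monotone (W_le_W.mpr (dvd_zero n))

theorem sg_dvd (e : FILat ≃o FILat) {m n : ℕ} : sg e m ∣ sg e n ↔ m ∣ n := by
  rw [← W_le_W, ← map_W, ← map_W, e.le_iff_le, W_le_W]

theorem sg_symm (e : FILat ≃o FILat) (n : ℕ) : sg e (sg e.symm n) = n := by
  apply W_inj
  rw [← map_W, ← map_W, e.apply_symm_apply]

theorem sg_symm' (e : FILat ≃o FILat) (n : ℕ) : sg e.symm (sg e n) = n := by
  apply W_inj
  rw [← map_W, ← map_W, e.symm_apply_apply]

theorem sg_inj (e : FILat ≃o FILat) : Function.Injective (sg e) := fun a b h => by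
  rw [← sg_symm' e a, h, sg_symm']

theorem ex_map (e : FILat ≃o FILat) (U : FILat) : ex (e U) = sg e (ex U) := by
  have key : ∀ n, n ∣ ex (e U) ↔ n ∣ sg e (ex U) := by
    intro n
    rw [← le_W, ← OrderIso.le_symm_apply, map_W, le_W, ← sg_dvd e, sg_symm]
  exact Nat.dvd_antisymm ((key _).mp dvd_rfl) ((key _).mpr dvd_rfl)

theorem B_le {U : FILat} {n : ℕ} : B n ≤ U ↔ ex U ∣ n := by
  constructor
  · intro h
    rw [ex_dvd_nat]
    exact h fun G _ hG f => by rw [map_pow]; exact hG _
  · intro h w hw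
    have h1 := hw (FreeGroup ℕ ⧸ U.1) (fun g => by
      induction g using QuotientGroup.induction_on with
      | H g =>
        rw [← QuotientGroup.mk_pow]
        exact (QuotientGroup.eq_one_iff _).mpr (pow_mem h g)) (QuotientGroup.mk' U.1)
    exact (QuotientGroup.eq_one_iff _).mp h1

theorem map_B (e : FILat ≃o FILat) (n : ℕ) : e (B n) = B (sg e n) := by
  have key : ∀ U, e (B n) ≤ U ↔ B (sg e n) ≤ U := by
    intro U
    rw [← OrderIso.le_symm_apply, B_le, ex_map, B_le, ← sg_dvd e, sg_symm]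
  exact le_antisymm ((key _).mpr le_rfl) ((key _).mp le_rfl)

theorem sg_zero (e : FILat ≃o FILat) : sg e 0 = 0 := by
  apply W_inj
  rw [← map_W, map_W_zero]

theorem sg_one (e : FILat ≃o FILat) : sg e 1 = 1 := by
  apply W_inj
  rw [← map_W, map_W_one]

theorem sg_prime (e : FILat ≃o FILat) {p : ℕ} (hp : p.Prime) : (sg e p).Prime := by
  obtain ⟨q, hq, h⟩ := mx_iff.mp (mx_map e (mx_iff.mpr ⟨p, hp, rfl⟩))
  rw [map_W] at h
  rwa [W_inj h]

/-- `q ^ k` divides the image of `n` iff `(q')^k` divides `n` -/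
theorem sg_prime_pow (e : FILat ≃o FILat) {p : ℕ} (hp : p.Prime) (k : ℕ) : sg e (p ^ k) = sg e p ^ k := by
  have hq := sg_prime e hp
  have h0 : sg e (p ^ k) ≠ 0 := by
    intro h
    have h1 := sg_inj e (h.trans (sg_zero e).symm)
    exact pow_ne_zero k hp.ne_zero h1
  have h1 : sg e (p ^ k) = sg e p ^ (sg e (p ^ k)).primeFactorsList.length := by
    apply Nat.eq_prime_pow_of_unique_prime_dvd h0
    intro r hr hd
    have h2 : sg e.symm r ∣ p ^ k := by
      rw [← sg_symm' e (p ^ k)]
      exact (sg_dvd e.symm).mpr hd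
    have h3 := (Nat.prime_dvd_prime_iff_eq (sg_prime e.symm hr) hp).mp
      ((sg_prime e.symm hr).dvd_of_dvd_pow h2)
    rw [← h3, sg_symm]
  have h2 : (sg e (p ^ k)).divisors.card = (p ^ k).divisors.card := by
    symm
    refine Finset.card_bij (fun d _ => sg e d) ?_ ?_ ?_
    · intro d hd
      rw [Nat.mem_divisors] at hd ⊢
      exact ⟨(sg_dvd e).mpr hd.1, h0⟩
    · intro a _ b _ h
      exact sg_inj e h
    · intro d hd
      rw [Nat.mem_divisors] at hd
      refine ⟨sg e.symm d, ?_, sg_symm e d⟩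
      rw [Nat.mem_divisors]
      refine ⟨?_, pow_ne_zero k hp.ne_zero⟩
      rw [← sg_symm' e (p ^ k)]
      exact (sg_dvd e.symm).mpr hd.1
  rw [h1, Nat.divisors_prime_pow hq, Nat.divisors_prime_pow hp, Finset.card_map, Finset.card_map,
    Finset.card_range, Finset.card_range] at h2
  rw [h1, show (sg e (p ^ k)).primeFactorsList.length = k by omega]

end Pool.Agent.Run7.h645.GV
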