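import Mathlib

/-!
# The lattice of group varieties: exponents
-/

set_option autoImplicit false

namespace Pool.Agent.Run7.h645.GV

/-- The fully invariant subgroups of the free group of countably infinite rank; this is the dual of the
lattice of the group varieties. -/
abbrev FILat := {H : Subgroup (FreeGroup ℕ) // ∀ φ : FreeGroup ℕ →* FreeGroup ℕ, H.map φ ≤ H}

/-- the laws of the group `G` -/
def laws (G : Type) [Group G] : FILat :=
  ⟨{ carrier := {w | ∀ f : FreeGroup ℕ →* G, f w = 1}
     mul_mem' := fun {a b} ha hb f => by rw [map_mul, ha f, hb f, one_mul]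
     one_mem' := fun f => map_one f
     inv_mem' := fun {a} ha f => by rw [map_inv, ha f, inv_one] }, by
    intro φ
    rintro _ ⟨w, hw, rfl⟩ f
    exact hw (f.comp φ)⟩

theorem mem_laws {G : Type} [Group G] {w : FreeGroup ℕ} :
    w ∈ (laws G).1 ↔ ∀ f : FreeGroup ℕ →* G, f w = 1 := Iff.rfl

/-- the laws of the abelian groups of exponent dividing `n` (for `n = 0`: of all abelian groups) -/
def W (n : ℕ) : FILat := laws (Multiplicative (ZMod n))

/-- the laws of the groups of exponent dividing `n` (for `n = 0`: of all groups) -/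
def B (n : ℕ) : FILat :=
  ⟨{ carrier := {w | ∀ (G : Type) [Group G], (∀ g : G, g ^ n = 1) → ∀ f : FreeGroup ℕ →* G, f w = 1}
     mul_mem' := fun {a b} ha hb G _ h f => by rw [map_mul, ha G h f, hb G h f, one_mul]
     one_mem' := fun _ _ _ f => map_one f
     inv_mem' := fun {a} ha G _ h f => by rw [map_inv, ha G h f, inv_one] }, by
    intro φ
    rintro _ ⟨w, hw, rfl⟩ G _ h f
    exact hw G h (f.comp φ)⟩

theorem map_mem (U : FILat) (φ : FreeGroup ℕ →* FreeGroup ℕ) {w : FreeGroup ℕ} (hw : w ∈ U.1) :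
    φ w ∈ U.1 := U.2 φ (Subgroup.mem_map_of_mem φ hw)

instance normal (U : FILat) : U.1.Normal :=
  ⟨fun _ hn g => map_mem U (MulAut.conj g).toMonoidHom hn⟩

/-- the first generator -/
def x0 : FreeGroup ℕ := FreeGroup.of 0

/-- The exponent of the variety (`0` if there is none): the order of the first generator modulo `U`. -/
noncomputable def ex (U : FILat) : ℕ := orderOf (QuotientGroup.mk x0 : FreeGroup ℕ ⧸ U.1)

theorem ex_dvd {U : FILat} {k : ℤ} : (ex U : ℤ) ∣ k ↔ x0 ^ k ∈ U.1 := by
  rw [ex, orderOf_dvd_iff_zpow_eq_one, ← QuotientGroup.mk_zpow, QuotientGroup.eq_one_iff]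

theorem ex_dvd_nat {U : FILat} {k : ℕ} : ex U ∣ k ↔ x0 ^ k ∈ U.1 := by
  rw [← Int.natCast_dvd_natCast, ex_dvd, zpow_natCast]

/-- the power words -/
theorem pow_mem {U : FILat} {k : ℕ} (h : ex U ∣ k) (w : FreeGroup ℕ) : w ^ k ∈ U.1 := by
  have h1 := map_mem U (FreeGroup.lift fun _ => w) (ex_dvd_nat.mp h)
  rwa [map_pow, x0, FreeGroup.lift_apply_of] at h1

theorem le_W {U : FILat} {n : ℕ} : U ≤ W n ↔ n ∣ ex U := by
  constructor
  · intro h
    have h1 : x0 ^ ex U ∈ (W n).1 := h (ex_dvd_nat.mp dvd_rfl)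
    have h2 := mem_laws.mp h1 (FreeGroup.lift fun _ => Multiplicative.ofAdd (1 : ZMod n))
    rw [map_pow, x0, FreeGroup.lift_apply_of, ← ofAdd_nsmul, ofAdd_eq_one, nsmul_one] at h2
    exact (ZMod.natCast_eq_zero_iff _ _).mp h2
  · intro h w hw
    refine mem_laws.mpr fun f => ?_
    choose b hb using fun i : ℕ => ZMod.intCast_surjective (Multiplicative.toAdd (f (FreeGroup.of i)))
    set g : FreeGroup ℕ →* Multiplicative ℤ := FreeGroup.lift fun i => Multiplicative.ofAdd (b i) with hg
    have h1 : ((zpowersHom (FreeGroup ℕ) x0).comp g) w ∈ U.1 := map_mem U _ hw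
    rw [MonoidHom.comp_apply, zpowersHom_apply] at h1
    have h2 := ex_dvd.mpr h1
    have h3 : (n : ℤ) ∣ Multiplicative.toAdd (g w) := (Int.natCast_dvd_natCast.mpr h).trans h2
    have h4 : f = (AddMonoidHom.toMultiplicative (Int.castAddHom (ZMod n))).comp g := by
      apply FreeGroup.ext_hom
      intro i
      rw [MonoidHom.comp_apply, hg, FreeGroup.lift_apply_of]
      apply Multiplicative.toAdd.injective
      exact (hb i).symm
    rw [h4, MonoidHom.comp_apply]
    apply Multiplicative.toAdd.injective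
    exact (ZMod.intCast_zmod_eq_zero_iff_dvd _ _).mpr h3

theorem ex_W (n : ℕ) : ex (W n) = n := by
  apply Nat.dvd_antisymm
  · rw [ex_dvd_nat]
    refine mem_laws.mpr fun f => ?_
    rw [map_pow]
    apply Multiplicative.toAdd.injective
    rw [toAdd_pow, toAdd_one, nsmul_eq_mul, ZMod.natCast_self, zero_mul]
  · exact le_W.mp le_rfl

theorem W_le_W {m n : ℕ} : W m ≤ W n ↔ n ∣ m := by rw [le_W, ex_W]

/-- If the variety is abelian then it is determined by the exponent. -/
theorem eq_W {U : FILat} (hc : ∀ a b : FreeGroup ℕ, a * b * a⁻¹ * b⁻¹ ∈ U.1) : U = W (ex U) := by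
  apply le_antisymm (le_W.mpr dvd_rfl)
  intro w hw
  let cg : CommGroup (FreeGroup ℕ ⧸ U.1) :=
    { (inferInstance : Group (FreeGroup ℕ ⧸ U.1)) with
      mul_comm := by
        intro a b
        induction a using QuotientGroup.induction_on with
        | H a =>
          induction b using QuotientGroup.induction_on with
          | H b =>
            rw [← QuotientGroup.mk_mul, ← QuotientGroup.mk_mul, QuotientGroup.eq]
            have h1 := hc b⁻¹ a⁻¹
            have h2 : b⁻¹ * a⁻¹ * b⁻¹⁻¹ * a⁻¹⁻¹ = (a * b)⁻¹ * (b * a) := by group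
            rwa [h2] at h1 }
  let π : FreeGroup ℕ →* FreeGroup ℕ ⧸ U.1 := QuotientGroup.mk' U.1
  let β : (ℕ →₀ ℤ) →+ Additive (FreeGroup ℕ ⧸ U.1) :=
    Finsupp.liftAddHom fun i => (zmultiplesHom _ (Additive.ofMul (π (FreeGroup.of i))))
  let α : FreeGroup ℕ →* Multiplicative (ℕ →₀ ℤ) :=
    FreeGroup.lift fun i => Multiplicative.ofAdd (Finsupp.single i 1)
  have h1 : π = (AddMonoidHom.toMultiplicativeLeft β).comp α := by
    apply FreeGroup.ext_hom
    intro i
    change π (FreeGroup.of i) = Additive.toMul (β (Multiplicative.toAdd (α (FreeGroup.of i))))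
    rw [show α (FreeGroup.of i) = Multiplicative.ofAdd (Finsupp.single i 1) from FreeGroup.lift_apply_of,
      toAdd_ofAdd, Finsupp.liftAddHom_apply_single, zmultiplesHom_apply, one_zsmul, toMul_ofMul]
  set v : ℕ →₀ ℤ := Multiplicative.toAdd (α w) with hv
  have h2 : ∀ i, (ex U : ℤ) ∣ v i := by
    intro i
    let e : FreeGroup ℕ →* Multiplicative (ZMod (ex U)) :=
      (AddMonoidHom.toMultiplicative ((Int.castAddHom (ZMod (ex U))).comp (Finsupp.applyAddHom i))).comp α
    have h3 := mem_laws.mp hw e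
    have h4 : Multiplicative.toAdd (e w) = ((v i : ℤ) : ZMod (ex U)) := rfl
    rw [h3, toAdd_one] at h4
    exact (ZMod.intCast_zmod_eq_zero_iff_dvd _ _).mp h4.symm
  have h3 : v = (ex U) • (v.mapRange (fun z => z / (ex U : ℤ)) (Int.zero_ediv _)) := by
    ext i
    rw [Finsupp.smul_apply, Finsupp.mapRange_apply, nsmul_eq_mul, Int.mul_ediv_cancel' (h2 i)]
  have h4 : π w = 1 := by
    rw [h1]
    change Additive.toMul (β v) = 1
    rw [h3, map_nsmul, toMul_nsmul]
    obtain ⟨u, hu⟩ := QuotientGroup.mk'_surjective U.1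
      (Additive.toMul (β (v.mapRange (fun z => z / (ex U : ℤ)) (Int.zero_ediv _))))
    rw [← hu, ← map_pow]
    exact (QuotientGroup.eq_one_iff _).mpr (pow_mem dvd_rfl u)
  exact (QuotientGroup.eq_one_iff _).mp h4

end Pool.Agent.Run7.h645.GV
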