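import Pool.Agent.Run7.h645.GV.Act

/-!
# The action on the exponents is multiplicative and fixes two
-/

set_option autoImplicit false

namespace Pool.Agent.Run7.h645.GV

theorem sg_ne_zero (e : FILat ≃o FILat) {n : ℕ} (h : n ≠ 0) : sg e n ≠ 0 :=
  fun h1 => h (sg_inj e (h1.trans (sg_zero e).symm))

theorem sg_factorization (e : FILat ≃o FILat) {n q : ℕ} (hn : n ≠ 0) (hq : q.Prime) :
    (sg e n).factorization q = n.factorization (sg e.symm q) := by
  have hq' := sg_prime e.symm hq
  have key : ∀ k, k ≤ (sg e n).factorization q ↔ k ≤ n.factorization (sg e.symm q) := by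
    intro k
    rw [← hq.pow_dvd_iff_le_factorization (sg_ne_zero e hn), ← hq'.pow_dvd_iff_le_factorization hn,
      ← sg_prime_pow e.symm hq, ← sg_dvd e (m := sg e.symm (q ^ k)) (n := n), sg_symm]
  exact le_antisymm ((key _).mp le_rfl) ((key _).mpr le_rfl)

theorem sg_mul (e : FILat ≃o FILat) (m n : ℕ) : sg e (m * n) = sg e m * sg e n := by
  rcases Nat.eq_zero_or_pos m with rfl | hm
  · rw [zero_mul, sg_zero, zero_mul]
  rcases Nat.eq_zero_or_pos n with rfl | hn
  · rw [mul_zero, sg_zero, mul_zero]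
  have hm' := hm.ne'
  have hn' := hn.ne'
  apply Nat.eq_of_factorization_eq (sg_ne_zero e (mul_ne_zero hm' hn'))
    (mul_ne_zero (sg_ne_zero e hm') (sg_ne_zero e hn'))
  intro q
  by_cases hq : q.Prime
  · rw [sg_factorization e (mul_ne_zero hm' hn') hq, Nat.factorization_mul hm' hn',
      Nat.factorization_mul (sg_ne_zero e hm') (sg_ne_zero e hn'), Finsupp.add_apply, Finsupp.add_apply,
      sg_factorization e hm' hq, sg_factorization e hn' hq]
  · rw [Nat.factorization_eq_zero_of_not_prime _ hq, Nat.factorization_eq_zero_of_not_prime _ hq]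

/-- the action on the exponents as an automorphism of the multiplicative monoid -/
noncomputable def act (e : FILat ≃o FILat) : ℕ ≃* ℕ where
  toFun := sg e
  invFun := sg e.symm
  left_inv := sg_symm' e
  right_inv := sg_symm e
  map_mul' := sg_mul e

theorem ex_B (n : ℕ) : ex (B n) = n := by
  apply Nat.dvd_antisymm
  · exact B_le.mp le_rfl
  · rw [← le_W, B_le, ex_W]

theorem B_two : B 2 = W 2 := by
  have h := eq_W (U := B 2) fun a b G _ hG f => by
    rw [map_mul, map_mul, map_mul, map_inv, map_inv]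
    have h1 : ∀ g : G, g⁻¹ = g := fun g => by
      rw [inv_eq_iff_mul_eq_one, ← pow_two, hG]
    rw [h1, h1, mul_assoc (f a * f b), ← pow_two, hG]
  rw [ex_B] at h
  exact h

/-- the Heisenberg group over the integers modulo `n` -/
@[ext] structure Heis (n : ℕ) where
  a : ZMod n
  b : ZMod n
  c : ZMod n

namespace Heis

variable {n : ℕ}

instance : Mul (Heis n) := ⟨fun x y => ⟨x.a + y.a, x.b + y.b, x.c + y.c + x.a * y.b⟩⟩
instance : One (Heis n) := ⟨⟨0, 0, 0⟩⟩
instance : Inv (Heis n) := ⟨fun x => ⟨-x.a, -x.b, -x.c + x.a * x.b⟩⟩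

theorem mul_def (x y : Heis n) : x * y = ⟨x.a + y.a, x.b + y.b, x.c + y.c + x.a * y.b⟩ := rfl
theorem one_def : (1 : Heis n) = ⟨0, 0, 0⟩ := rfl
theorem inv_def (x : Heis n) : x⁻¹ = ⟨-x.a, -x.b, -x.c + x.a * x.b⟩ := rfl

instance : Group (Heis n) := Group.ofLeftAxioms
  (fun x y z => by
    rw [mul_def, mul_def, mul_def, mul_def]
    ext <;> simp only <;> ring)
  (fun x => by
    rw [mul_def, one_def]
    ext <;> simp only <;> ring)
  (fun x => by
    rw [mul_def, one_def, inv_def]
    ext <;> simp only <;> ring)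

theorem pow_def (x : Heis n) (k : ℕ) :
    x ^ k = ⟨k * x.a, k * x.b, k * x.c + (k.choose 2 : ℕ) * (x.a * x.b)⟩ := by
  induction k with
  | zero =>
    rw [pow_zero, one_def]
    ext <;> simp
  | succ k ih =>
    rw [pow_succ, ih, mul_def]
    have h : (k + 1).choose 2 = k + k.choose 2 := by
      rw [Nat.choose_succ_succ' k 1, Nat.choose_one_right]
    rw [h]
    ext <;> push_cast <;> ring

end Heis

theorem B_ne_W {p : ℕ} (hp : p.Prime) (h2 : p ≠ 2) : B p ≠ W p := by
  intro h
  have h3 : 2 < p := lt_of_le_of_ne hp.two_le (Ne.symm h2)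
  have : Fact p.Prime := ⟨hp⟩
  have hex : ∀ g : Heis p, g ^ p = 1 := by
    intro g
    have hc : ((p.choose 2 : ℕ) : ZMod p) = 0 :=
      (ZMod.natCast_eq_zero_iff _ _).mpr (hp.dvd_choose_self two_ne_zero h3)
    rw [Heis.pow_def, hc, ZMod.natCast_self, Heis.one_def, zero_mul, zero_mul, zero_mul, zero_mul, add_zero]
  have hw : FreeGroup.of 0 * FreeGroup.of 1 * (FreeGroup.of 0)⁻¹ * (FreeGroup.of 1)⁻¹ ∈ (W p).1 := by
    refine mem_laws.mpr fun f => ?_
    rw [map_mul, map_mul, map_mul, map_inv, map_inv, mul_comm (f (FreeGroup.of 0)) (f (FreeGroup.of 1))]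
    group
  rw [← h] at hw
  have h4 := hw (Heis p) hex (FreeGroup.lift fun i => if i = 0 then ⟨1, 0, 0⟩ else ⟨0, 1, 0⟩)
  rw [map_mul, map_mul, map_mul, map_inv, map_inv, FreeGroup.lift_apply_of, FreeGroup.lift_apply_of,
    if_pos rfl, if_neg one_ne_zero, mul_inv_eq_one, mul_inv_eq_iff_eq_mul, Heis.mul_def, Heis.mul_def,
    Heis.mk.injEq] at h4
  simp at h4

/-- Every automorphism fixes the exponent two. -/
theorem sg_two (e : FILat ≃o FILat) : sg e 2 = 2 := by
  by_contra h
  apply B_ne_W (sg_prime e Nat.prime_two) h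
  rw [← map_B, ← map_W, B_two]

end Pool.Agent.Run7.h645.GV
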